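import Pool.Agent.X223.EqDegDef

/-!
Q1 of MP_d395f7_lc, positive answer, without parameters: for every algebraically closed field `k`
of characteristic zero, in particular for the complex numbers, the relation of equal degree on
`k[t]` (with the degree of `0` being minus infinity) is first-order definable, without
parameters, in the language of rings.

Idea of the defining formula, for two nonconstant polynomials `f` and `g`: there are constants
`c`, `d` such that `f + c` and `g + d` are squarefree, a linear polynomial `T`, and a polynomial
`h` which induces a bijection between the sets of the constants `a` with `T - a ∣ f + c` and of
the constants `b` with `T - b ∣ g + d`, in the sense that `T - a ∣ h - b`.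
-/

set_option autoImplicit false

namespace Pool.Agent.Results.MP_d395f7_lc.EqualDegreeDefinable

open Polynomial FirstOrder

/-- The polynomial ring `k[X]` as a structure for the language of rings. -/
noncomputable abbrev polyStructure (k : Type) [Field k] : Language.ring.Structure k[X] :=
  (FirstOrder.Ring.compatibleRingOfRing k[X]).toStructure

/-- The set of pairs of polynomials of the same degree is definable in the ring `k[X]`, in the
language of rings, with no parameters. -/
def EqualDegreeDefinable (k : Type) [Field k] : Prop :=
  letI := polyStructure k
  (∅ : Set k[X]).Definable Language.ring
    {v : Fin 2 → k[X] | (v 0).degree = (v 1).degree}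

theorem result : ∀ (k : Type) [Field k] [IsAlgClosed k] [CharZero k], EqualDegreeDefinable k :=
  fun _ _ _ _ => Pool.Agent.X223.EqDeg.definable_eqDegree

example : EqualDegreeDefinable ℂ := result ℂ

end Pool.Agent.Results.MP_d395f7_lc.EqualDegreeDefinable
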